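import Pool.Agent.Run7.h761.KH.Tree

/-!
A checker for refutation trees of the following constraint system on triples of eight points: in
every five points some triple is present, and all present triples of the five points share a point.
-/

set_option autoImplicit false

namespace Pool.Agent.Run7.h761.KH

/-- The code of a triple. -/
def cd (i j k : ℕ) : ℕ := i + 8 * j + 64 * k

/-- The five numbers are increasing and less than eight. -/
def ok5 (i j k l m : ℕ) : Bool :=
  decide (i < j) && decide (j < k) && decide (k < l) && decide (l < m) && decide (m < 8)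

/-- All ten triples are excluded. -/
def lfA (o i j k l m : ℕ) : Bool :=
  o.testBit (cd i j k) && o.testBit (cd i j l) && o.testBit (cd i j m) && o.testBit (cd i k l) &&
    o.testBit (cd i k m) && o.testBit (cd i l m) && o.testBit (cd j k l) &&
    o.testBit (cd j k m) && o.testBit (cd j l m) && o.testBit (cd k l m)

/-- Some triple of the four points is present. -/
def any4 (p j k l m : ℕ) : Bool :=
  p.testBit (cd j k l) || p.testBit (cd j k m) || p.testBit (cd j l m) || p.testBit (cd k l m)

/-- The present triples of the five points have no common point. -/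
def lfB (p i j k l m : ℕ) : Bool :=
  any4 p j k l m && any4 p i k l m && any4 p i j l m && any4 p i j k m && any4 p i j k l

/-- Evaluate the argument first. -/
def force {α : Type} (p : ℕ) (f : ℕ → α) : α :=
  Nat.rec (motive := fun _ => α) (f 0) (fun n _ => f (n + 1)) p

theorem force_eq {α : Type} (p : ℕ) (f : ℕ → α) : force p f = f p := by
  cases p <;> rfl

/-- The checker: a list of tokens in preorder and a stack of states. -/
def run : List ℕ → List (ℕ × ℕ) → Bool
  | [], st => st.isEmpty
  | _ :: _, [] => false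
  | t :: ts, s :: st =>
    cond (Nat.beq (t % 4) 0)
      (force (s.1 ||| 1 <<< cd (t / 4 % 8) (t / 32 % 8) (t / 256 % 8)) fun p =>
        force (s.2 ||| 1 <<< cd (t / 4 % 8) (t / 32 % 8) (t / 256 % 8)) fun o =>
          run ts ((p, s.2) :: (s.1, o) :: st))
      (cond (Nat.beq (t % 4) 1)
        (ok5 (t / 4 % 8) (t / 32 % 8) (t / 256 % 8) (t / 2048 % 8) (t / 16384 % 8) &&
          lfA s.2 (t / 4 % 8) (t / 32 % 8) (t / 256 % 8) (t / 2048 % 8) (t / 16384 % 8) &&
          run ts st)
        (ok5 (t / 4 % 8) (t / 32 % 8) (t / 256 % 8) (t / 2048 % 8) (t / 16384 % 8) &&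
          lfB s.1 (t / 4 % 8) (t / 32 % 8) (t / 256 % 8) (t / 2048 % 8) (t / 16384 % 8) &&
          run ts st))

/-- A state (present triples, excluded triples) agrees with `P`. -/
def Con (P : ℕ → ℕ → ℕ → Prop) (s : ℕ × ℕ) : Prop :=
  (∀ i j k, i < 8 → j < 8 → k < 8 → s.1.testBit (cd i j k) = true → P i j k) ∧
    (∀ i j k, i < 8 → j < 8 → k < 8 → s.2.testBit (cd i j k) = true → ¬ P i j k)

/-- The constraint system. -/
def Sys (P : ℕ → ℕ → ℕ → Prop) : Prop :=
  ∀ i j k l m, i < j → j < k → k < l → l < m → m < 8 →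
    (P i j k ∨ P i j l ∨ P i j m ∨ P i k l ∨ P i k m ∨ P i l m ∨ P j k l ∨ P j k m ∨ P j l m ∨
      P k l m) ∧
    ((¬ P j k l ∧ ¬ P j k m ∧ ¬ P j l m ∧ ¬ P k l m) ∨
      (¬ P i k l ∧ ¬ P i k m ∧ ¬ P i l m ∧ ¬ P k l m) ∨
      (¬ P i j l ∧ ¬ P i j m ∧ ¬ P i l m ∧ ¬ P j l m) ∨
      (¬ P i j k ∧ ¬ P i j m ∧ ¬ P i k m ∧ ¬ P j k m) ∨
      (¬ P i j k ∧ ¬ P i j l ∧ ¬ P i k l ∧ ¬ P j k l))

theorem testBit_set (p a b : ℕ) (h : (p ||| 1 <<< a).testBit b = true) :
    p.testBit b = true ∨ b = a := by
  rw [Nat.testBit_or, Bool.or_eq_true] at h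
  rcases h with h | h
  · exact Or.inl h
  · right
    rw [Nat.one_shiftLeft, Nat.testBit_two_pow] at h
    simpa using Eq.symm (by simpa using h)

theorem cd_inj {i j k i' j' k' : ℕ} (hi : i < 8) (hj : j < 8) (hi' : i' < 8)
    (hj' : j' < 8) (h : cd i j k = cd i' j' k') : i = i' ∧ j = j' ∧ k = k' := by
  unfold cd at h
  omega

theorem not_any4 (P : ℕ → ℕ → ℕ → Prop) (s : ℕ × ℕ) (hs : Con P s) {j k l m : ℕ} (hj : j < 8)
    (hk : k < 8) (hl : l < 8) (hm : m < 8) (h : any4 s.1 j k l m = true)
    (h' : ¬ P j k l ∧ ¬ P j k m ∧ ¬ P j l m ∧ ¬ P k l m) : False := by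
  unfold any4 at h
  simp only [Bool.or_eq_true] at h
  obtain ⟨h1, h2, h3, h4⟩ := h'
  rcases h with ((h | h) | h) | h
  · exact h1 (hs.1 _ _ _ hj hk hl h)
  · exact h2 (hs.1 _ _ _ hj hk hm h)
  · exact h3 (hs.1 _ _ _ hj hl hm h)
  · exact h4 (hs.1 _ _ _ hk hl hm h)

theorem run_sound (P : ℕ → ℕ → ℕ → Prop) (hP : Sys P) :
    ∀ (ts : List ℕ) (st : List (ℕ × ℕ)), run ts st = true → ∀ s ∈ st, ¬ Con P s := by
  intro ts
  induction ts with
  | nil =>
    intro st h s hs
    simp only [run, List.isEmpty_iff] at h
    subst h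
    simp at hs
  | cons t ts ih =>
    intro st h
    cases st with
    | nil => intro s hs; simp at hs
    | cons s0 st =>
      have hi : t / 4 % 8 < 8 := Nat.mod_lt _ (by norm_num)
      have hj : t / 32 % 8 < 8 := Nat.mod_lt _ (by norm_num)
      have hk : t / 256 % 8 < 8 := Nat.mod_lt _ (by norm_num)
      simp only [run] at h
      revert h hi hj hk
      generalize t / 4 % 8 = i
      generalize t / 32 % 8 = j
      generalize t / 256 % 8 = k
      generalize t / 2048 % 8 = l
      generalize t / 16384 % 8 = m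
      intro h hi hj hk
      cases h0 : Nat.beq (t % 4) 0 with
      | true =>
        rw [h0, cond_true, force_eq, force_eq] at h
        have h1 := ih _ h
        intro s hs
        rcases List.mem_cons.1 hs with hs | hs
        · subst hs
          intro hc
          by_cases hp : P i j k
          · refine h1 (s.1 ||| 1 <<< cd i j k, s.2) (by simp) ⟨?_, hc.2⟩
            intro i' j' k' hi' hj' hk' hb
            rcases testBit_set _ _ _ hb with hb | hb
            · exact hc.1 _ _ _ hi' hj' hk' hb
            · obtain ⟨e1, e2, e3⟩ := cd_inj hi' hj' hi hj hb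
              rw [e1, e2, e3]
              exact hp
          · refine h1 (s.1, s.2 ||| 1 <<< cd i j k) (by simp) ⟨hc.1, ?_⟩
            intro i' j' k' hi' hj' hk' hb
            rcases testBit_set _ _ _ hb with hb | hb
            · exact hc.2 _ _ _ hi' hj' hk' hb
            · obtain ⟨e1, e2, e3⟩ := cd_inj hi' hj' hi hj hb
              rw [e1, e2, e3]
              exact hp
        · exact h1 s (by simp [hs])
      | false =>
        rw [h0, cond_false] at h
        cases h1 : Nat.beq (t % 4) 1 with
        | true =>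
          rw [h1, cond_true, Bool.and_eq_true, Bool.and_eq_true] at h
          obtain ⟨⟨hok, hA⟩, hr⟩ := h
          intro s hs
          rcases List.mem_cons.1 hs with hs | hs
          · subst hs
            intro hc
            unfold ok5 at hok
            simp only [Bool.and_eq_true, decide_eq_true_eq] at hok
            obtain ⟨⟨⟨⟨a1, a2⟩, a3⟩, a4⟩, a5⟩ := hok
            have hl : l < 8 := by omega
            unfold lfA at hA
            simp only [Bool.and_eq_true] at hA
            obtain ⟨⟨⟨⟨⟨⟨⟨⟨⟨b1, b2⟩, b3⟩, b4⟩, b5⟩, b6⟩, b7⟩, b8⟩, b9⟩, b10⟩ := hA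
            rcases (hP i j k l m a1 a2 a3 a4 a5).1 with
              h | h | h | h | h | h | h | h | h | h
            · exact hc.2 _ _ _ hi hj hk b1 h
            · exact hc.2 _ _ _ hi hj hl b2 h
            · exact hc.2 _ _ _ hi hj a5 b3 h
            · exact hc.2 _ _ _ hi hk hl b4 h
            · exact hc.2 _ _ _ hi hk a5 b5 h
            · exact hc.2 _ _ _ hi hl a5 b6 h
            · exact hc.2 _ _ _ hj hk hl b7 h
            · exact hc.2 _ _ _ hj hk a5 b8 h
            · exact hc.2 _ _ _ hj hl a5 b9 h
            · exact hc.2 _ _ _ hk hl a5 b10 h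
          · exact ih _ hr s hs
        | false =>
          rw [h1, cond_false, Bool.and_eq_true, Bool.and_eq_true] at h
          obtain ⟨⟨hok, hB⟩, hr⟩ := h
          intro s hs
          rcases List.mem_cons.1 hs with hs | hs
          · subst hs
            intro hc
            unfold ok5 at hok
            simp only [Bool.and_eq_true, decide_eq_true_eq] at hok
            obtain ⟨⟨⟨⟨a1, a2⟩, a3⟩, a4⟩, a5⟩ := hok
            have hl : l < 8 := by omega
            unfold lfB at hB
            simp only [Bool.and_eq_true] at hB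
            obtain ⟨⟨⟨⟨b1, b2⟩, b3⟩, b4⟩, b5⟩ := hB
            rcases (hP i j k l m a1 a2 a3 a4 a5).2 with h | h | h | h | h
            · exact not_any4 P s hc hj hk hl a5 b1 h
            · exact not_any4 P s hc hi hk hl a5 b2 h
            · exact not_any4 P s hc hi hj hl a5 b3 h
            · exact not_any4 P s hc hi hj hk a5 b4 h
            · exact not_any4 P s hc hi hj hk hl b5 h
          · exact ih _ hr s hs

theorem run_tks : run tks [(1 <<< 136 ||| 1 <<< 200, 0)] = true := by
  decide +kernel

/-- Two triples sharing two of the eight points cannot both be present. -/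
theorem eight (P : ℕ → ℕ → ℕ → Prop) (hP : Sys P) (h1 : P 0 1 2) (h2 : P 0 1 3) : False := by
  refine run_sound P hP tks _ run_tks (1 <<< 136 ||| 1 <<< 200, 0) (by simp) ⟨?_, ?_⟩
  · intro i j k hi hj hk hb
    rcases testBit_set _ _ _ hb with hb | hb
    · rw [Nat.one_shiftLeft, Nat.testBit_two_pow] at hb
      have hb' : (136 : ℕ) = cd i j k := by simpa using hb
      obtain ⟨e1, e2, e3⟩ := cd_inj (i := 0) (j := 1) (k := 2) (by norm_num) (by norm_num) hi hj
        (show cd 0 1 2 = cd i j k from hb')
      rw [← e1, ← e2, ← e3]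
      exact h1
    · obtain ⟨e1, e2, e3⟩ := cd_inj (i' := 0) (j' := 1) (k' := 3) hi hj (by norm_num)
        (by norm_num) (show cd i j k = cd 0 1 3 from hb)
      rw [e1, e2, e3]
      exact h2
  · intro i j k hi hj hk hb
    simp at hb

end Pool.Agent.Run7.h761.KH
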