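import Pool.Agent.Run7.h761.KH.Check

/-!
No 3-uniform hypergraph on ten points has, in every five points, an edge and a point common to all
edges inside the five points.
-/

set_option autoImplicit false

namespace Pool.Agent.Run7.h761.KH

open Finset

variable {Ω : Type} [DecidableEq Ω]

theorem sub_five {p q r s t : Ω} (hn : [p, q, r, s, t].Nodup) (A : Finset Ω) (hA : A.card = 3)
    (hs : A ⊆ {p, q, r, s, t}) :
    A = {p, q, r} ∨ A = {p, q, s} ∨ A = {p, q, t} ∨ A = {p, r, s} ∨ A = {p, r, t} ∨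
      A = {p, s, t} ∨ A = {q, r, s} ∨ A = {q, r, t} ∨ A = {q, s, t} ∨ A = {r, s, t} := by
  have hA' : A = ({p, q, r, s, t} : Finset Ω).filter (· ∈ A) := by
    ext x
    simp only [Finset.mem_filter]
    exact ⟨fun h => ⟨hs h, h⟩, fun h => h.2⟩
  simp only [List.nodup_cons, List.mem_cons, List.not_mem_nil, or_false, not_or,
    List.nodup_nil, and_true, not_false_eq_true] at hn
  obtain ⟨⟨h1, h2, h3, h4⟩, ⟨h5, h6, h7⟩, ⟨h8, h9⟩, h10⟩ := hn
  by_cases hp : p ∈ A <;> by_cases hq : q ∈ A <;> by_cases hr : r ∈ A <;>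
    by_cases hs' : s ∈ A <;> by_cases ht : t ∈ A <;>
    simp only [Finset.filter_insert, Finset.filter_singleton, hp, hq, hr, hs', ht, if_true,
      if_false] at hA' <;>
    first
      | exact Or.inl hA'
      | exact Or.inr (Or.inl hA')
      | exact Or.inr (Or.inr (Or.inl hA'))
      | exact Or.inr (Or.inr (Or.inr (Or.inl hA')))
      | exact Or.inr (Or.inr (Or.inr (Or.inr (Or.inl hA'))))
      | exact Or.inr (Or.inr (Or.inr (Or.inr (Or.inr (Or.inl hA')))))
      | exact Or.inr (Or.inr (Or.inr (Or.inr (Or.inr (Or.inr (Or.inl hA'))))))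
      | exact Or.inr (Or.inr (Or.inr (Or.inr (Or.inr (Or.inr (Or.inr (Or.inl hA')))))))
      | exact Or.inr (Or.inr (Or.inr (Or.inr (Or.inr (Or.inr (Or.inr (Or.inr (Or.inl hA'))))))))
      | exact Or.inr (Or.inr (Or.inr (Or.inr (Or.inr (Or.inr (Or.inr (Or.inr (Or.inr hA'))))))))
      | (exfalso
         rw [hA'] at hA
         simp [h1, h2, h3, h4, h5, h6, h7, h8, h9, h10] at hA)

/-- The property of the hypergraph `F` inside `W`. -/
def Good (W : Finset Ω) (F : Finset Ω → Prop) : Prop :=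
  (∀ A, F A → A.card = 3) ∧
    ∀ K ⊆ W, K.card = 5 → (∃ A, F A ∧ A ⊆ K) ∧ ∃ x ∈ K, ∀ A, F A → A ⊆ K → x ∈ A

theorem five {W : Finset Ω} {F : Finset Ω → Prop} (hG : Good W F) {p q r s t : Ω}
    (hn : [p, q, r, s, t].Nodup) (hp : p ∈ W) (hq : q ∈ W) (hr : r ∈ W) (hs : s ∈ W)
    (ht : t ∈ W) :
    (F {p, q, r} ∨ F {p, q, s} ∨ F {p, q, t} ∨ F {p, r, s} ∨ F {p, r, t} ∨ F {p, s, t} ∨
        F {q, r, s} ∨ F {q, r, t} ∨ F {q, s, t} ∨ F {r, s, t}) ∧
      ((¬ F {q, r, s} ∧ ¬ F {q, r, t} ∧ ¬ F {q, s, t} ∧ ¬ F {r, s, t}) ∨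
        (¬ F {p, r, s} ∧ ¬ F {p, r, t} ∧ ¬ F {p, s, t} ∧ ¬ F {r, s, t}) ∨
        (¬ F {p, q, s} ∧ ¬ F {p, q, t} ∧ ¬ F {p, s, t} ∧ ¬ F {q, s, t}) ∨
        (¬ F {p, q, r} ∧ ¬ F {p, q, t} ∧ ¬ F {p, r, t} ∧ ¬ F {q, r, t}) ∨
        (¬ F {p, q, r} ∧ ¬ F {p, q, s} ∧ ¬ F {p, r, s} ∧ ¬ F {q, r, s})) := by
  have hn' := hn
  simp only [List.nodup_cons, List.mem_cons, List.not_mem_nil, or_false, not_or,
    List.nodup_nil, and_true, not_false_eq_true] at hn'
  obtain ⟨⟨h1, h2, h3, h4⟩, ⟨h5, h6, h7⟩, ⟨h8, h9⟩, h10⟩ := hn'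
  have hK : ({p, q, r, s, t} : Finset Ω) ⊆ W := by
    intro x hx
    simp only [mem_insert, mem_singleton] at hx
    rcases hx with h | h | h | h | h <;> rw [h] <;> assumption
  have hc : ({p, q, r, s, t} : Finset Ω).card = 5 := by
    simp [h1, h2, h3, h4, h5, h6, h7, h8, h9, h10]
  obtain ⟨⟨A, hFA, hAK⟩, x, hx, hall⟩ := hG.2 _ hK hc
  constructor
  · rcases sub_five hn A (hG.1 A hFA) hAK with h | h | h | h | h | h | h | h | h | h <;>
      rw [h] at hFA <;> simp only [hFA, true_or, or_true]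
  · have key : ∀ a b c : Ω, a ∈ ({p, q, r, s, t} : Finset Ω) → b ∈ ({p, q, r, s, t} : Finset Ω) →
        c ∈ ({p, q, r, s, t} : Finset Ω) → x ≠ a → x ≠ b → x ≠ c → ¬ F {a, b, c} := by
      intro a b c ha hb hc' hxa hxb hxc hF
      have := hall _ hF (by
        intro y hy
        simp only [mem_insert, mem_singleton] at hy
        rcases hy with h | h | h <;> rw [h] <;> assumption)
      simp only [mem_insert, mem_singleton] at this
      tauto
    have mp : p ∈ ({p, q, r, s, t} : Finset Ω) := by simp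
    have mq : q ∈ ({p, q, r, s, t} : Finset Ω) := by simp
    have mr : r ∈ ({p, q, r, s, t} : Finset Ω) := by simp
    have ms : s ∈ ({p, q, r, s, t} : Finset Ω) := by simp
    have mt : t ∈ ({p, q, r, s, t} : Finset Ω) := by simp
    have hx' := hx
    simp only [mem_insert, mem_singleton] at hx'
    rcases hx' with h | h | h | h | h
    · subst h
      exact Or.inl ⟨key _ _ _ mq mr ms h1 h2 h3, key _ _ _ mq mr mt h1 h2 h4,
        key _ _ _ mq ms mt h1 h3 h4, key _ _ _ mr ms mt h2 h3 h4⟩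
    · subst h
      exact Or.inr (Or.inl ⟨key _ _ _ mp mr ms (Ne.symm h1) h5 h6,
        key _ _ _ mp mr mt (Ne.symm h1) h5 h7, key _ _ _ mp ms mt (Ne.symm h1) h6 h7,
        key _ _ _ mr ms mt h5 h6 h7⟩)
    · subst h
      exact Or.inr (Or.inr (Or.inl ⟨key _ _ _ mp mq ms (Ne.symm h2) (Ne.symm h5) h8,
        key _ _ _ mp mq mt (Ne.symm h2) (Ne.symm h5) h9,
        key _ _ _ mp ms mt (Ne.symm h2) h8 h9, key _ _ _ mq ms mt (Ne.symm h5) h8 h9⟩))
    · subst h
      exact Or.inr (Or.inr (Or.inr (Or.inl ⟨key _ _ _ mp mq mr (Ne.symm h3) (Ne.symm h6)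
        (Ne.symm h8), key _ _ _ mp mq mt (Ne.symm h3) (Ne.symm h6) h10,
        key _ _ _ mp mr mt (Ne.symm h3) (Ne.symm h8) h10,
        key _ _ _ mq mr mt (Ne.symm h6) (Ne.symm h8) h10⟩)))
    · subst h
      exact Or.inr (Or.inr (Or.inr (Or.inr ⟨key _ _ _ mp mq mr (Ne.symm h4) (Ne.symm h7)
        (Ne.symm h9), key _ _ _ mp mq ms (Ne.symm h4) (Ne.symm h7) (Ne.symm h10),
        key _ _ _ mp mr ms (Ne.symm h4) (Ne.symm h9) (Ne.symm h10),
        key _ _ _ mq mr ms (Ne.symm h7) (Ne.symm h9) (Ne.symm h10)⟩)))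

theorem lin {W : Finset Ω} {F : Finset Ω → Prop} (hG : Good W F) (hW : W.card = 10)
    {a b c d : Ω} (hn : [a, b, c, d].Nodup) (ha : a ∈ W) (hb : b ∈ W) (hc : c ∈ W) (hd : d ∈ W)
    (h1 : F {a, b, c}) (h2 : F {a, b, d}) : False := by
  have hn' := hn
  simp only [List.nodup_cons, List.mem_cons, List.not_mem_nil, or_false, not_or,
    List.nodup_nil, and_true, not_false_eq_true] at hn'
  obtain ⟨⟨g1, g2, g3⟩, ⟨g4, g5⟩, g6⟩ := hn'
  set S : Finset Ω := {a, b, c, d} with hS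
  have hSW : S ⊆ W := by
    intro x hx
    simp only [hS, mem_insert, mem_singleton] at hx
    rcases hx with h | h | h | h <;> rw [h] <;> assumption
  have hSc : S.card = 4 := by simp [hS, g1, g2, g3, g4, g5, g6]
  have hTc : (W \ S).card = 6 := by rw [card_sdiff_of_subset hSW, hW, hSc]
  set L : List Ω := [a, b, c, d] ++ (W \ S).toList with hL
  have hLn : L.Nodup := by
    refine List.Nodup.append hn (Finset.nodup_toList _) ?_
    intro x hx hx'
    rw [Finset.mem_toList, mem_sdiff] at hx'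
    apply hx'.2
    simpa [hS] using hx
  have hLl : L.length = 10 := by simp [hL, hTc]
  have hLW : ∀ x ∈ L, x ∈ W := by
    intro x hx
    rw [hL, List.mem_append] at hx
    rcases hx with hx | hx
    · apply hSW
      simpa [hS] using hx
    · rw [Finset.mem_toList, mem_sdiff] at hx
      exact hx.1
  have hget : ∀ i, i < 8 → ∃ h : i < L.length, L.getD i a = L[i] := by
    intro i hi
    have h : i < L.length := by omega
    exact ⟨h, List.getD_eq_getElem L a h⟩
  have hmem : ∀ i, i < 8 → L.getD i a ∈ W := by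
    intro i hi
    obtain ⟨h, e⟩ := hget i hi
    rw [e]
    exact hLW _ (List.getElem_mem h)
  have hne : ∀ i j, i < j → j < 8 → L.getD i a ≠ L.getD j a := by
    intro i j hij hj
    obtain ⟨h, e⟩ := hget i (by omega)
    obtain ⟨h', e'⟩ := hget j hj
    rw [e, e']
    intro he
    have := (List.Nodup.getElem_inj_iff hLn).1 he
    omega
  refine eight (fun i j k => F {L.getD i a, L.getD j a, L.getD k a}) ?_ h1 h2
  intro i j k l m hij hjk hkl hlm hm
  refine five hG ?_ (hmem i (by omega)) (hmem j (by omega)) (hmem k (by omega))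
    (hmem l (by omega)) (hmem m hm)
  have e1 := hne i j hij (by omega)
  have e2 := hne i k (by omega) (by omega)
  have e3 := hne i l (by omega) (by omega)
  have e4 := hne i m (by omega) hm
  have e5 := hne j k hjk (by omega)
  have e6 := hne j l (by omega) (by omega)
  have e7 := hne j m (by omega) hm
  have e8 := hne k l hkl (by omega)
  have e9 := hne k m (by omega) hm
  have e10 := hne l m hlm hm
  simp only [List.nodup_cons, List.mem_cons, List.not_mem_nil, or_false, not_or,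
    List.nodup_nil, and_true, not_false_eq_true]
  exact ⟨⟨e1, e2, e3, e4⟩, ⟨e5, e6, e7⟩, ⟨e8, e9⟩, e10⟩

/-- Some pair of points lies in no edge. -/
theorem free_pair {W : Finset Ω} {F : Finset Ω → Prop} (hG : Good W F) (hW : W.card = 10)
    {v : Ω} (hv : v ∈ W) :
    ∃ w ∈ W, w ≠ v ∧ ∀ x ∈ W, x ≠ v → x ≠ w → ¬ F {v, w, x} := by
  by_contra hcon
  push Not at hcon
  have hcon' : ∀ w ∈ W.erase v, ∃ x ∈ W.erase v, x ≠ w ∧ F {v, w, x} := by
    intro w hw
    rw [mem_erase] at hw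
    obtain ⟨x, hx, hxv, hxw, hF⟩ := hcon w hw.2 hw.1
    exact ⟨x, mem_erase.2 ⟨hxv, hx⟩, hxw, hF⟩
  choose g hg1 hg2 hg3 using hcon'
  have hsum : ∑ _w ∈ W.erase v, (1 : ZMod 2) = 0 := by
    refine Finset.sum_involution g (fun w hw => by decide) (fun w hw _ => hg2 w hw)
      (fun w hw => hg1 w hw) ?_
    intro w hw
    by_contra hne
    have m1 := hg1 w hw
    have m2 := hg1 (g w hw) m1
    have f1 := hg3 w hw
    have f2 := hg3 (g w hw) m1
    have n1 := hg2 w hw
    have n2 := hg2 (g w hw) m1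
    rw [mem_erase] at hw m1 m2
    have f1' : F {v, g w (mem_erase.2 hw), w} := by
      have e : ({v, g w (mem_erase.2 hw), w} : Finset Ω) = {v, w, g w (mem_erase.2 hw)} := by
        rw [Finset.pair_comm]
      rw [e]
      exact f1
    refine lin hG hW ?_ hv m1.2 hw.2 m2.2 f1' f2
    simp only [List.nodup_cons, List.mem_cons, List.not_mem_nil, or_false, not_or,
      List.nodup_nil, and_true, not_false_eq_true]
    exact ⟨⟨Ne.symm m1.1, Ne.symm hw.1, Ne.symm m2.1⟩, ⟨n1, Ne.symm n2⟩, fun h => hne h.symm⟩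
  rw [Finset.sum_const, card_erase_of_mem hv, hW] at hsum
  exact absurd hsum (by decide)

/-- For a point `v`, all `y` with `F {v, x, y}` are equal. -/
theorem nb_card {W : Finset Ω} {F : Finset Ω → Prop} (hG : Good W F) (hW : W.card = 10)
    {v x : Ω} (hv : v ∈ W) (hx : x ∈ W) (hvx : v ≠ x) (S : Finset Ω)
    (hS : ∀ y ∈ S, y ∈ W ∧ y ≠ v ∧ y ≠ x ∧ F {v, x, y}) : S.card ≤ 1 := by
  rw [Finset.card_le_one]
  intro y hy z hz
  by_contra hyz
  obtain ⟨y1, y2, y3, y4⟩ := hS y hy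
  obtain ⟨z1, z2, z3, z4⟩ := hS z hz
  refine lin hG hW ?_ hv hx y1 z1 y4 z4
  simp only [List.nodup_cons, List.mem_cons, List.not_mem_nil, or_false, not_or,
    List.nodup_nil, and_true, not_false_eq_true]
  exact ⟨⟨hvx, Ne.symm y2, Ne.symm z2⟩, ⟨Ne.symm y3, Ne.symm z3⟩, hyz⟩

theorem ten {W : Finset Ω} {F : Finset Ω → Prop} (hG : Good W F) (hW : W.card = 10) : False := by
  classical
  obtain ⟨v, hv⟩ : W.Nonempty := by
    rw [← Finset.card_pos]
    omega
  obtain ⟨w, hw, hwv, hfree⟩ := free_pair hG hW hv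
  -- the set of points excluded by x
  let N : Ω → Finset Ω := fun x =>
    W.filter (fun y => y ≠ v ∧ y ≠ x ∧ F {v, x, y}) ∪ W.filter (fun y => y ≠ w ∧ y ≠ x ∧ F {w, x, y})
  have hN : ∀ x ∈ W, x ≠ v → x ≠ w → (N x).card ≤ 2 := by
    intro x hx hxv hxw
    have c1 : (W.filter (fun y => y ≠ v ∧ y ≠ x ∧ F {v, x, y})).card ≤ 1 :=
      nb_card hG hW hv hx (Ne.symm hxv) _ fun y hy => by
        rw [mem_filter] at hy
        exact hy
    have c2 : (W.filter (fun y => y ≠ w ∧ y ≠ x ∧ F {w, x, y})).card ≤ 1 :=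
      nb_card hG hW hw hx (Ne.symm hxw) _ fun y hy => by
        rw [mem_filter] at hy
        exact hy
    have := Finset.card_union_le (W.filter (fun y => y ≠ v ∧ y ≠ x ∧ F {v, x, y}))
      (W.filter (fun y => y ≠ w ∧ y ≠ x ∧ F {w, x, y}))
    change (W.filter (fun y => y ≠ v ∧ y ≠ x ∧ F {v, x, y}) ∪
      W.filter (fun y => y ≠ w ∧ y ≠ x ∧ F {w, x, y})).card ≤ 2
    omega
  have hNmem : ∀ x y, y ∈ W → y ≠ v → y ≠ w → y ≠ x → y ∉ N x →
      ¬ F {v, x, y} ∧ ¬ F {w, x, y} := by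
    intro x y hy hyv hyw hyx hyN
    constructor
    · intro hF
      apply hyN
      exact mem_union_left _ (mem_filter.2 ⟨hy, hyv, hyx, hF⟩)
    · intro hF
      apply hyN
      exact mem_union_right _ (mem_filter.2 ⟨hy, hyw, hyx, hF⟩)
  -- the greedy choice
  have hS0 : 8 ≤ (W \ {v, w}).card := by
    have h1 := Finset.le_card_sdiff ({v, w} : Finset Ω) W
    have h2 : ({v, w} : Finset Ω).card ≤ 2 := Finset.card_le_two
    omega
  obtain ⟨x1, hx1⟩ : (W \ {v, w}).Nonempty := by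
    rw [← Finset.card_pos]
    omega
  have mx1 := hx1
  simp only [mem_sdiff, mem_insert, mem_singleton, not_or] at mx1
  have hS1 : 5 ≤ ((W \ {v, w}) \ insert x1 (N x1)).card := by
    have h1 := Finset.le_card_sdiff (insert x1 (N x1)) (W \ {v, w})
    have h2 := Finset.card_insert_le x1 (N x1)
    have h3 := hN x1 mx1.1 mx1.2.1 mx1.2.2
    omega
  obtain ⟨x2, hx2⟩ : ((W \ {v, w}) \ insert x1 (N x1)).Nonempty := by
    rw [← Finset.card_pos]
    omega
  have mx2 := hx2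
  simp only [mem_sdiff, mem_insert, mem_singleton, not_or] at mx2
  have hS2 : 1 < (((W \ {v, w}) \ insert x1 (N x1)) \ insert x2 (N x2)).card := by
    have h1 := Finset.le_card_sdiff (insert x2 (N x2)) ((W \ {v, w}) \ insert x1 (N x1))
    have h2 := Finset.card_insert_le x2 (N x2)
    have h3 := hN x2 mx2.1.1 mx2.1.2.1 mx2.1.2.2
    omega
  obtain ⟨x3, hx3, x4, hx4, h34⟩ := Finset.one_lt_card.1 hS2
  have key : ∀ y ∈ (((W \ {v, w}) \ insert x1 (N x1)) \ insert x2 (N x2)), F {x1, x2, y} := by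
    intro y hy
    simp only [mem_sdiff, mem_insert, mem_singleton, not_or] at hy
    obtain ⟨⟨⟨yW, yv, yw⟩, y1, yN1⟩, y2, yN2⟩ := hy
    have hn : [v, w, x1, x2, y].Nodup := by
      simp only [List.nodup_cons, List.mem_cons, List.not_mem_nil, or_false, not_or,
        List.nodup_nil, and_true, not_false_eq_true]
      exact ⟨⟨Ne.symm hwv, Ne.symm mx1.2.1, Ne.symm mx2.1.2.1, Ne.symm yv⟩,
        ⟨Ne.symm mx1.2.2, Ne.symm mx2.1.2.2, Ne.symm yw⟩, ⟨Ne.symm mx2.2.1, Ne.symm y1⟩,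
        Ne.symm y2⟩
    have a1 := hNmem x1 x2 mx2.1.1 mx2.1.2.1 mx2.1.2.2 mx2.2.1 mx2.2.2
    have a2 := hNmem x1 y yW yv yw y1 yN1
    have a3 := hNmem x2 y yW yv yw y2 yN2
    rcases (five hG hn hv hw mx1.1 mx2.1.1 yW).1 with h | h | h | h | h | h | h | h | h | h
    · exact absurd h (hfree x1 mx1.1 mx1.2.1 mx1.2.2)
    · exact absurd h (hfree x2 mx2.1.1 mx2.1.2.1 mx2.1.2.2)
    · exact absurd h (hfree y yW yv yw)
    · exact absurd h a1.1
    · exact absurd h a2.1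
    · exact absurd h a3.1
    · exact absurd h a1.2
    · exact absurd h a2.2
    · exact absurd h a3.2
    · exact h
  have k3 := key x3 hx3
  have k4 := key x4 hx4
  simp only [mem_sdiff, mem_insert, mem_singleton, not_or] at hx3 hx4
  refine lin hG hW ?_ mx1.1 mx2.1.1 hx3.1.1.1 hx4.1.1.1 k3 k4
  simp only [List.nodup_cons, List.mem_cons, List.not_mem_nil, or_false, not_or,
    List.nodup_nil, and_true, not_false_eq_true]
  exact ⟨⟨Ne.symm mx2.2.1, Ne.symm hx3.1.2.1, Ne.symm hx4.1.2.1⟩,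
    ⟨Ne.symm hx3.2.1, Ne.symm hx4.2.1⟩, h34⟩

end Pool.Agent.Run7.h761.KH
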